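import Pool.Agent.LPR.Stmts
import Pool.Agent.Helper27_LSG.CZE

/-!
# Squad LPR, row SGS: splitting a null sequence
-/

set_option autoImplicit false

open Set Topology Filter

namespace Pool.Agent.LPR.H58

open Pool.Agent.LSG Pool.Agent.LPR
open Pool.Agent.LSG.H27 (ex ex_infty ex_coe fun_ext ev e3 t3 u3)

variable {X : Type} [TopologicalSpace X] {O : Set X}

/-- the null sequences which vanish off `O` are null sequences -/
def inc (f : ↥(Sg O)) : ↥(Cz X) := ⟨f.1, f.2.1, f.2.2.2⟩

theorem t3a (f : ↥(Sg O)) : (t3 (inc f)).1.1 ∈ Sg O := by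
  refine ⟨(t3 (inc f)).1.2.1, fun x hx n => ?_, (t3 (inc f)).1.2.2⟩
  induction n using OnePoint.rec with
  | infty => rfl
  | coe n => exact f.2.2.1 x hx _

theorem t3b (f : ↥(Sg O)) : (t3 (inc f)).2.1 ∈ Sg O := by
  refine ⟨(t3 (inc f)).2.2.1, fun x hx n => ?_, (t3 (inc f)).2.2.2⟩
  induction n using OnePoint.rec with
  | infty => rfl
  | coe n => exact f.2.2.1 x hx _

theorem u3c (q : ↥(Sg O) × ↥(Sg O)) : ex (u3 (inc q.1, inc q.2)) ∈ Sg O := by
  have h := H27.u3_mem (inc q.1, inc q.2)
  refine ⟨h.1, fun x hx n => ?_, h.2⟩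
  induction n using OnePoint.rec with
  | infty => rfl
  | coe n =>
    rw [ex_coe]
    unfold u3
    by_cases hn : n % 2 = 0
    · rw [if_pos hn]
      exact q.1.2.2.1 x hx _
    · rw [if_neg hn]
      exact q.2.2.2.1 x hx _

/-- the splitting -/
noncomputable def sp (O : Set X) : ↥(Sg O) ≃L[ℝ] (↥(Sg O) × ↥(Sg O)) where
  toFun f := (⟨(t3 (inc f)).1.1, t3a f⟩, ⟨(t3 (inc f)).2.1, t3b f⟩)
  invFun q := ⟨ex (u3 (inc q.1, inc q.2)), u3c q⟩
  map_add' f g := by
    refine Prod.ext (Subtype.ext (fun_ext (fun y => ?_) fun y n => rfl))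
      (Subtype.ext (fun_ext (fun y => ?_) fun y n => rfl))
    · exact (add_zero (0 : ℝ)).symm
    · exact (add_zero (0 : ℝ)).symm
  map_smul' c f := by
    refine Prod.ext (Subtype.ext (fun_ext (fun y => ?_) fun y n => rfl))
      (Subtype.ext (fun_ext (fun y => ?_) fun y n => rfl))
    · exact (mul_zero c).symm
    · exact (mul_zero c).symm
  left_inv f := by
    refine Subtype.ext ?_
    exact congrArg (fun r : ↥(Cz X) => r.1) (e3.left_inv (inc f))
  right_inv q := by
    have h := e3.right_inv (inc q.1, inc q.2)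
    refine Prod.ext (Subtype.ext ?_) (Subtype.ext ?_)
    · exact congrArg (fun r : ↥(Cz X) × ↥(Cz X) => r.1.1) h
    · exact congrArg (fun r : ↥(Cz X) × ↥(Cz X) => r.2.1) h
  continuous_toFun := by
    refine Continuous.prodMk ?_ ?_
    · refine Continuous.subtype_mk (continuous_pi fun p => ?_) _
      obtain ⟨y, x⟩ := p
      induction x using OnePoint.rec with
      | infty => exact continuous_const
      | coe n => exact ev _
    · refine Continuous.subtype_mk (continuous_pi fun p => ?_) _
      obtain ⟨y, x⟩ := p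
      induction x using OnePoint.rec with
      | infty => exact continuous_const
      | coe n => exact ev _
  continuous_invFun := by
    refine Continuous.subtype_mk (continuous_pi fun p => ?_) _
    obtain ⟨y, x⟩ := p
    induction x using OnePoint.rec with
    | infty => exact continuous_const
    | coe n =>
      simp only [ex_coe]
      unfold u3
      by_cases h : n % 2 = 0
      · simp only [if_pos h]
        exact (ev (S := Sg O) (y, ((n / 2 : ℕ) : OnePoint ℕ))).comp continuous_fst
      · simp only [if_neg h]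
        exact (ev (S := Sg O) (y, ((n / 2 : ℕ) : OnePoint ℕ))).comp continuous_snd

/-- `O = univ`, functions -/
noncomputable def sq : ↥(Fo (Set.univ : Set X)) ≃L[ℝ] ↥(Cp X) where
  toFun f := ⟨f.1, f.2.1⟩
  invFun f := ⟨f.1, f.2, fun x hx => absurd (Set.mem_univ x) hx⟩
  map_add' _ _ := rfl
  map_smul' _ _ := rfl
  left_inv _ := rfl
  right_inv _ := rfl
  continuous_toFun := Continuous.subtype_mk continuous_subtype_val _
  continuous_invFun := Continuous.subtype_mk continuous_subtype_val _

/-- `O = univ`, sequences -/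
noncomputable def sr : ↥(Sg (Set.univ : Set X)) ≃L[ℝ] ↥(Cz X) where
  toFun f := ⟨f.1, f.2.1, f.2.2.2⟩
  invFun f := ⟨f.1, f.2.1, fun x hx => absurd (Set.mem_univ x) hx, f.2.2⟩
  map_add' _ _ := rfl
  map_smul' _ _ := rfl
  left_inv _ := rfl
  right_inv _ := rfl
  continuous_toFun := Continuous.subtype_mk continuous_subtype_val _
  continuous_invFun := Continuous.subtype_mk continuous_subtype_val _

/-- **SGS** -/
theorem sgs : SgsStmt := fun _ _ => ⟨fun O => ⟨sp O⟩, ⟨sq⟩, ⟨sr⟩⟩

end Pool.Agent.LPR.H58
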